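import Pool.Agent.Lib.MP_99c308_an.Solution

set_option autoImplicit false

namespace Pool.Agent.Results.MP_99c308_an.DegreeEight

/-- **Meromorphic solutions of `f⁸ + g⁸ + h⁸ = 1` exist.**  There are functions `f`, `g`, `h`,
meromorphic on the whole complex plane (`MeromorphicNFOn _ Set.univ`: meromorphic at every point
and with the normalised value at every point, so `f` is analytic exactly at the points that are
not poles of `f`), none of them constant, with `f ^ 8 + g ^ 8 + h ^ 8 = 1` at every point which is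
not a pole of one of them. -/
theorem result :
    ∃ f g h : ℂ → ℂ,
      MeromorphicNFOn f Set.univ ∧ MeromorphicNFOn g Set.univ ∧ MeromorphicNFOn h Set.univ ∧
      (∀ c : ℂ, f ≠ fun _ => c) ∧ (∀ c : ℂ, g ≠ fun _ => c) ∧ (∀ c : ℂ, h ≠ fun _ => c) ∧
      ∀ z : ℂ, AnalyticAt ℂ f z → AnalyticAt ℂ g z → AnalyticAt ℂ h z →
        f z ^ 8 + g z ^ 8 + h z ^ 8 = 1 :=
  Pool.Agent.MP99c308.exists_solution

end Pool.Agent.Results.MP_99c308_an.DegreeEight
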